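import Mathlib

/-!
# Definitions: the truncated inequality of Vojta for the projective line over `ℚ` and the divisor
`0 + 1 + ∞`; sets of rational points
-/

set_option autoImplicit false

namespace Pool.Agent.L5helper92.TS

open Polynomial

/-- the height `log max (|a|, b)` of a rational number `a / b` in lowest terms -/
noncomputable def ht (x : ℚ) : ℝ := Real.log (max (x.num.natAbs : ℝ) (x.den : ℝ))

/-- the truncated counting function of the divisor `0 + 1 + ∞` at `x = a / b`, relative to the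
archimedean place and the primes in `S`: the sum of `log p` over the primes `p` not in `S` which
divide `a b (b - a)` -/
noncomputable def N1 (S : Finset ℕ) (x : ℚ) : ℝ :=
  ∑ p ∈ (x.num.natAbs * x.den * ((x.den : ℤ) - x.num).natAbs).primeFactors \ S, Real.log p

/-- Vojta's inequality with truncated counting function for the projective line over `ℚ`, the
divisor `0 + 1 + ∞` and the places in `S` and `∞`, for the points in `E` -/
def Truncated (S : Finset ℕ) (E : Set ℚ) : Prop :=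
  ∀ ε : ℝ, 0 < ε → ∀ C : ℝ,
    {x : ℚ | x ∈ E ∧ x ≠ 0 ∧ x ≠ 1 ∧ N1 S x < ht x - ε * ht x - C}.Finite

/-- the points `(Q / P) ^ 2` where `P > Q ≥ 1` are coprime, `P + Q` and `P - Q` are perfect `n`-th
powers, `N ∣ Q`, `Q ≤ δ P` and `P ^ 2` is in one of the intervals `[Y i, (Y i) ^ (1 + δ)]` -/
def Dih (n N : ℕ) (δ : ℝ) (Y : ℕ → ℝ) : Set ℚ :=
  {x | ∃ P Q u v : ℕ, 1 ≤ Q ∧ Q < P ∧ Nat.Coprime P Q ∧ P + Q = u ^ n ∧ P - Q = v ^ n ∧
    N ∣ Q ∧ (Q : ℝ) ≤ δ * P ∧ (∃ i, Y i ≤ (P : ℝ) ^ 2 ∧ (P : ℝ) ^ 2 ≤ (Y i) ^ (1 + δ)) ∧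
    x = ((Q : ℚ) / P) ^ 2}

/-- the values `p (t) / (p (t) + q (t))` at the `t` in `E` -/
def Img (p q : ℤ[X]) (E : Set ℚ) : Set ℚ :=
  {x | ∃ t ∈ E, aeval t p + aeval t q ≠ 0 ∧ x = aeval t p / (aeval t p + aeval t q)}

end Pool.Agent.L5helper92.TS
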