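import Mathlib
import Pool.Agent.N746.Self.Family
import Pool.Agent.N746.Self.Shapes
import Pool.Agent.L5helper92.TS.Defs

/-!
# The truncated inequality of Vojta for the projective line and the divisor `0 + 1 + ∞` over `ℚ`, and
abc triples
-/

set_option autoImplicit false

namespace Pool.Agent.L5helper92.TS

open Finset
open Pool.Agent.N746.Self (R ABC)

theorem ht_nonneg (x : ℚ) : 0 ≤ ht x := by
  unfold ht
  apply Real.log_nonneg
  have : (1 : ℝ) ≤ x.den := by exact_mod_cast x.pos
  exact le_max_of_le_right this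

theorem log_nat_nonneg (p : ℕ) : 0 ≤ Real.log p := Real.log_natCast_nonneg p

theorem N1_nonneg (S : Finset ℕ) (x : ℚ) : 0 ≤ N1 S x :=
  sum_nonneg fun p _ => log_nat_nonneg p

theorem N1_le (S : Finset ℕ) (x : ℚ) : N1 S x ≤ N1 ∅ x := by
  unfold N1
  exact sum_le_sum_of_subset_of_nonneg (by rw [sdiff_empty]; exact sdiff_subset)
    fun p _ _ => log_nat_nonneg p

theorem le_N1 (S : Finset ℕ) (x : ℚ) : N1 ∅ x ≤ N1 S x + ∑ p ∈ S, Real.log p := by
  unfold N1
  rw [sdiff_empty]
  set F := (x.num.natAbs * x.den * ((x.den : ℤ) - x.num).natAbs).primeFactors with hF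
  calc ∑ p ∈ F, Real.log p ≤ ∑ p ∈ (F \ S) ∪ S, Real.log p :=
        sum_le_sum_of_subset_of_nonneg (by
          intro p hp
          by_cases h : p ∈ S
          · exact mem_union_right _ h
          · exact mem_union_left _ (mem_sdiff.2 ⟨hp, h⟩)) fun p _ _ => log_nat_nonneg p
    _ = _ := by rw [sum_union (disjoint_sdiff_self_left)]

theorem log_R (n : ℕ) : Real.log (R n) = ∑ p ∈ n.primeFactors, Real.log p := by
  unfold R
  push_cast
  rw [Real.log_prod]
  intro p hp
  have := (Nat.prime_of_mem_primeFactors hp).pos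
  positivity

/-- there are finitely many rational numbers of bounded height -/
theorem northcott (B : ℝ) : {x : ℚ | ht x ≤ B}.Finite := by
  set M : ℕ := ⌊Real.exp B⌋₊ with hM
  apply ((Finset.Icc (-(M : ℤ)) M ×ˢ Finset.Icc 0 M).image
    fun r : ℤ × ℕ => (r.1 : ℚ) / r.2).finite_toSet.subset
  intro x hx
  rw [Set.mem_ofPred_eq, ht] at hx
  have hd : (0 : ℝ) < x.den := by exact_mod_cast x.pos
  have h1 : max (x.num.natAbs : ℝ) (x.den : ℝ) ≤ Real.exp B := by
    rw [← Real.log_le_iff_le_exp (lt_max_of_lt_right hd)]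
    exact hx
  have h2 : x.num.natAbs ≤ M := Nat.le_floor ((le_max_left _ _).trans h1)
  have h3 : x.den ≤ M := Nat.le_floor ((le_max_right _ _).trans h1)
  rw [coe_image]
  refine ⟨(x.num, x.den), ?_, ?_⟩
  · simp only [coe_product, Set.mem_prod, Finset.coe_Icc, Set.mem_Icc]
    refine ⟨⟨?_, ?_⟩, Nat.zero_le _, h3⟩
    · omega
    · omega
  · exact Rat.num_div_den x

/-- the abc inequality for the triples with the property `T` follows from the truncated inequality
for the points in `E` -/
theorem abc_of_truncated (S : Finset ℕ) (E : Set ℚ) (T : ℕ → ℕ → ℕ → Prop)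
    (hTE : ∀ a b c : ℕ, 0 < a → 0 < b → Nat.Coprime a b → a + b = c → T a b c →
      ∃ x ∈ E, x ≠ 0 ∧ x ≠ 1 ∧ N1 ∅ x = Real.log (R (a * b * c)) ∧ Real.log c ≤ ht x + Real.log 2)
    (h : Truncated S E) : ABC T := by
  intro ε hε
  set δ : ℝ := ε / (1 + ε) with hδ
  have hδ0 : 0 < δ := by positivity
  have hδ1 : 1 - δ = 1 / (1 + ε) := by rw [hδ]; field_simp; ring
  have hδp : 0 < 1 - δ := by rw [hδ1]; positivity
  obtain ⟨K, hK⟩ := (((h δ hδ0 0).image ht).bddAbove)
  set K' : ℝ := max K 0 with hK'
  have key : ∀ x ∈ E, x ≠ 0 → x ≠ 1 → (1 - δ) * ht x - K' ≤ N1 S x := by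
    intro x hx h0 h1
    by_cases hb : N1 S x < ht x - δ * ht x - 0
    · have h2 : ht x ≤ K := hK ⟨x, ⟨hx, h0, h1, hb⟩, rfl⟩
      have h3 : ht x ≤ K' := h2.trans (le_max_left _ _)
      have h4 := N1_nonneg S x
      have h5 := ht_nonneg x
      nlinarith
    · have h2 : 0 ≤ K' := le_max_right _ _
      linarith
  refine ⟨Real.exp ((1 + ε) * K' + Real.log 2), fun a b c ha hb hab habc hT => ?_⟩
  obtain ⟨x, hx, h0, h1, hR, hc⟩ := hTE a b c ha hb hab habc hT
  have hc0 : (0 : ℝ) < c := by exact_mod_cast (by omega : 0 < c)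
  have hR0 : (0 : ℝ) < R (a * b * c) := by
    exact_mod_cast Pool.Agent.N746.Self.R_pos _
  have h2 := key x hx h0 h1
  have h3 := N1_le S x
  have h4 : (1 - δ) * ht x ≤ Real.log (R (a * b * c)) + K' := by rw [← hR]; linarith
  have h5 : ht x ≤ (1 + ε) * (Real.log (R (a * b * c)) + K') := by
    rw [hδ1] at h4
    have : (1 + ε) * (1 / (1 + ε) * ht x) ≤ (1 + ε) * (Real.log (R (a * b * c)) + K') :=
      mul_le_mul_of_nonneg_left h4 (by positivity)
    have e : (1 + ε) * (1 / (1 + ε) * ht x) = ht x := by field_simp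
    rwa [e] at this
  have h6 : Real.log c ≤ ((1 + ε) * K' + Real.log 2) + (1 + ε) * Real.log (R (a * b * c)) := by
    linarith
  calc (c : ℝ) = Real.exp (Real.log c) := (Real.exp_log hc0).symm
    _ ≤ Real.exp (((1 + ε) * K' + Real.log 2) + (1 + ε) * Real.log (R (a * b * c))) :=
        Real.exp_le_exp.2 h6
    _ = _ := by
        rw [Real.exp_add, mul_comm (1 + ε) (Real.log _), Real.exp_mul, Real.exp_log hR0]

/-- the abc triple of a rational number -/
theorem triple_of_rat (x : ℚ) (h0 : x ≠ 0) (h1 : x ≠ 1) :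
    ∃ a b c : ℕ, 0 < a ∧ 0 < b ∧ Nat.Coprime a b ∧ a + b = c ∧
      N1 ∅ x = Real.log (R (a * b * c)) ∧ ht x ≤ Real.log c := by
  have hd := x.pos
  have hn0 : x.num ≠ 0 := Rat.num_ne_zero.2 h0
  have hne : (x.den : ℤ) - x.num ≠ 0 := by
    intro h
    apply h1
    rw [← Rat.num_div_den x]
    have : x.num = x.den := by omega
    rw [this]
    have : (x.den : ℚ) ≠ 0 := by exact_mod_cast hd.ne'
    push_cast
    exact div_self this
  have hcop : Nat.Coprime x.num.natAbs x.den := x.reduced
  have hN : N1 ∅ x = Real.log (R (x.num.natAbs * x.den * ((x.den : ℤ) - x.num).natAbs)) := by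
    rw [log_R]; unfold N1; rw [sdiff_empty]
  rcases lt_trichotomy x.num 0 with hn | hn | hn
  · -- `c = den - num`
    refine ⟨x.num.natAbs, x.den, x.num.natAbs + x.den, by omega, hd, hcop, rfl, ?_, ?_⟩
    · rw [hN]
      have : ((x.den : ℤ) - x.num).natAbs = x.num.natAbs + x.den := by omega
      rw [this]
    · unfold ht
      have hd' : (0 : ℝ) < x.den := by exact_mod_cast hd
      apply Real.log_le_log (lt_max_of_lt_right hd')
      push_cast
      apply max_le
      · linarith
      · have : (0 : ℝ) ≤ (x.num.natAbs : ℝ) := Nat.cast_nonneg _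
        linarith
  · exact absurd hn hn0
  · rcases lt_or_gt_of_ne (show (x.den : ℤ) ≠ x.num by omega) with hlt | hlt
    · -- `c = num`
      refine ⟨x.den, x.num.natAbs - x.den, x.num.natAbs, hd, by omega, ?_, by omega, ?_, ?_⟩
      · rw [Nat.coprime_sub_self_right (by omega)]
        exact hcop.symm
      · rw [hN]
        have : ((x.den : ℤ) - x.num).natAbs = x.num.natAbs - x.den := by omega
        rw [this]
        congr 2
        ring_nf
      · unfold ht
        rw [max_eq_left]
        exact_mod_cast (by omega : x.den ≤ x.num.natAbs)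
    · refine ⟨x.num.natAbs, x.den - x.num.natAbs, x.den, by omega, by omega, ?_, by omega, ?_, ?_⟩
      · rw [Nat.coprime_sub_self_right (by omega)]
        exact hcop
      · rw [hN]
        have : ((x.den : ℤ) - x.num).natAbs = x.den - x.num.natAbs := by omega
        rw [this]
        congr 2
        ring_nf
      · unfold ht
        rw [max_eq_right]
        exact_mod_cast (by omega : x.num.natAbs ≤ x.den)

/-- the truncated inequality for all rational points follows from the abc conjecture -/
theorem truncated_of_abc (S : Finset ℕ) (h : ABC fun _ _ _ => True) : Truncated S Set.univ := by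
  intro ε hε C
  obtain ⟨κ, hκ⟩ := h (ε / 2) (by positivity)
  set κ' : ℝ := max κ 1 with hκ'
  have hκ1 : 1 ≤ κ' := le_max_right _ _
  set c0 : ℝ := ∑ p ∈ S, Real.log p with hc0
  have hc00 : 0 ≤ c0 := sum_nonneg fun p _ => log_nat_nonneg p
  apply (northcott ((Real.log κ' + (1 + ε / 2) * c0 + (1 + ε / 2) * |C|) / (ε / 2))).subset
  rintro x ⟨-, h0, h1, hx⟩
  by_contra hbig
  rw [Set.mem_ofPred_eq, not_le, div_lt_iff₀ (by positivity)] at hbig
  obtain ⟨a, b, c, ha, hb, hab, habc, hR, hc⟩ := triple_of_rat x h0 h1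
  have hcpos : (0 : ℝ) < c := by exact_mod_cast (by omega : 0 < c)
  have hR0 : (0 : ℝ) < R (a * b * c) := by
    exact_mod_cast Pool.Agent.N746.Self.R_pos _
  have h2 : (c : ℝ) ≤ κ' * (R (a * b * c) : ℝ) ^ (1 + ε / 2) :=
    (hκ a b c ha hb hab habc trivial).trans
      (mul_le_mul_of_nonneg_right (le_max_left _ _) (by positivity))
  have h3 : Real.log c ≤ Real.log κ' + (1 + ε / 2) * N1 ∅ x := by
    have := Real.log_le_log hcpos h2
    rw [Real.log_mul (by positivity) (by positivity), Real.log_rpow hR0, ← hR] at this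
    exact this
  have h4 := le_N1 S x
  have h5 : ht x ≤ Real.log κ' + (1 + ε / 2) * (N1 S x + c0) := by
    have : (1 + ε / 2) * N1 ∅ x ≤ (1 + ε / 2) * (N1 S x + c0) :=
      mul_le_mul_of_nonneg_left h4 (by positivity)
    linarith
  have h6 := ht_nonneg x
  have h7 : N1 S x < ht x - ε * ht x + |C| := by
    have := neg_abs_le C
    linarith
  have h8 : (1 + ε / 2) * N1 S x ≤ (1 + ε / 2) * (ht x - ε * ht x + |C|) :=
    mul_le_mul_of_nonneg_left h7.le (by positivity)
  nlinarith [mul_nonneg (mul_nonneg hε.le hε.le) h6]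

theorem Truncated.mono {S : Finset ℕ} {E F : Set ℚ} (hEF : E ⊆ F) (h : Truncated S F) :
    Truncated S E := fun ε hε C =>
  (h ε hε C).subset fun _ hx => ⟨hEF hx.1, hx.2⟩

/-- the equivalence from the equivalence for triples -/
theorem iff_of (S : Finset ℕ) (E : Set ℚ) (T : ℕ → ℕ → ℕ → Prop)
    (hT : ABC T ↔ ABC fun _ _ _ => True)
    (hTE : ∀ a b c : ℕ, 0 < a → 0 < b → Nat.Coprime a b → a + b = c → T a b c →
      ∃ x ∈ E, x ≠ 0 ∧ x ≠ 1 ∧ N1 ∅ x = Real.log (R (a * b * c)) ∧
        Real.log c ≤ ht x + Real.log 2) :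
    Truncated S E ↔ Truncated S Set.univ :=
  ⟨fun h => truncated_of_abc S (hT.1 (abc_of_truncated S E T hTE h)),
    fun h => h.mono (Set.subset_univ _)⟩

/-- the point of a triple -/
theorem point_of_triple (a b c : ℕ) (ha : 0 < a) (hb : 0 < b) (hab : Nat.Coprime a b)
    (habc : a + b = c) (A B : ℤ) (m : ℕ) (hm : 0 < m)
    (h : ({m * a, m * b, m * c} : Multiset ℕ) = {A.natAbs, B.natAbs, (A + B).natAbs}) :
    ((A : ℚ) / (A + B)) ≠ 0 ∧ ((A : ℚ) / (A + B)) ≠ 1 ∧
      N1 ∅ ((A : ℚ) / (A + B)) = Real.log (R (a * b * c)) ∧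
      Real.log c ≤ ht ((A : ℚ) / (A + B)) + Real.log 2 := by
  have hc : 0 < c := by omega
  have hac : Nat.Coprime a c := by rw [← habc]; simpa using hab
  have hbc : Nat.Coprime b c := by rw [← habc]; simpa using hab.symm
  -- divide by `m`
  have hdA : m ∣ A.natAbs := by
    have : A.natAbs ∈ ({m * a, m * b, m * c} : Multiset ℕ) := by rw [h]; simp
    simp only [Multiset.insert_eq_cons, Multiset.mem_cons, Multiset.mem_singleton] at this
    rcases this with e | e | e <;> rw [e] <;> exact dvd_mul_right _ _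
  have hdB : m ∣ B.natAbs := by
    have : B.natAbs ∈ ({m * a, m * b, m * c} : Multiset ℕ) := by rw [h]; simp
    simp only [Multiset.insert_eq_cons, Multiset.mem_cons, Multiset.mem_singleton] at this
    rcases this with e | e | e <;> rw [e] <;> exact dvd_mul_right _ _
  obtain ⟨A', rfl⟩ : (m : ℤ) ∣ A := Int.natCast_dvd.2 hdA
  obtain ⟨B', rfl⟩ : (m : ℤ) ∣ B := Int.natCast_dvd.2 hdB
  have hmul : ∀ z : ℤ, ((m : ℤ) * z).natAbs = m * z.natAbs := by
    intro z; rw [Int.natAbs_mul, Int.natAbs_natCast]
  have h' : ({a, b, c} : Multiset ℕ) = {A'.natAbs, B'.natAbs, (A' + B').natAbs} := by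
    rw [← mul_add, hmul, hmul, hmul] at h
    have hinj : Function.Injective (fun n : ℕ => m * n) := fun x y hxy =>
      Nat.eq_of_mul_eq_mul_left hm hxy
    apply Multiset.map_injective hinj
    simpa using h
  set α := A'.natAbs with hα
  set β := B'.natAbs with hβ
  set γ := (A' + B').natAbs with hγ
  have hmq : (m : ℚ) ≠ 0 := by exact_mod_cast hm.ne'
  have hx : (((m : ℤ) * A' : ℤ) : ℚ) / ((((m : ℤ) * A' : ℤ) : ℚ) + (((m : ℤ) * B' : ℤ) : ℚ)) =
      (A' : ℚ) / ((A' + B' : ℤ) : ℚ) := by
    push_cast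
    rw [← mul_add, mul_div_mul_left _ _ hmq]
  rw [hx]
  -- the six orders
  have hprod : α * β * γ = a * b * c := by
    have := congrArg Multiset.prod h'
    simp only [Multiset.insert_eq_cons, Multiset.prod_cons, Multiset.prod_singleton] at this
    rw [mul_assoc, ← this, mul_assoc]
  have hfacts : Nat.Coprime α γ ∧ 0 < α ∧ 0 < β ∧ 0 < γ ∧ c ≤ 2 * max α γ := by
    have hα' : α ∈ ({a, b, c} : Multiset ℕ) := by rw [h']; simp
    have hβ' : β ∈ ({a, b, c} : Multiset ℕ) := by rw [h']; simp
    have hγ' : γ ∈ ({a, b, c} : Multiset ℕ) := by rw [h']; simp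
    have hsum : α + β + γ = a + b + c := by
      have := congrArg Multiset.sum h'
      simp only [Multiset.insert_eq_cons, Multiset.sum_cons, Multiset.sum_singleton] at this
      omega
    simp only [Multiset.insert_eq_cons, Multiset.mem_cons, Multiset.mem_singleton] at hα' hβ' hγ'
    have hpos : 0 < α ∧ 0 < β ∧ 0 < γ := by
      refine ⟨?_, ?_, ?_⟩ <;> omega
    refine ⟨?_, hpos.1, hpos.2.1, hpos.2.2, ?_⟩
    · -- coprimality
      have e : ∀ u v : ℕ, ({a, b, c} : Multiset ℕ) = {u, β, v} → Nat.Coprime u v := by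
        intro u v he
        have hu : u ∈ ({a, b, c} : Multiset ℕ) := by rw [he]; simp
        simp only [Multiset.insert_eq_cons, Multiset.mem_cons, Multiset.mem_singleton] at hu
        have he' : ({a, b, c} : Multiset ℕ) = u ::ₘ v ::ₘ {β} := by
          rw [he]
          simp only [Multiset.insert_eq_cons]
          congr 1
          rw [← Multiset.singleton_add, ← Multiset.singleton_add, add_comm]
        rcases hu with rfl | rfl | rfl
        · have h3 : b ::ₘ ({c} : Multiset ℕ) = v ::ₘ {β} := by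
            have := he'
            simp only [Multiset.insert_eq_cons] at this
            exact (Multiset.cons_inj_right _).1 this
          have : v ∈ b ::ₘ ({c} : Multiset ℕ) := by rw [h3]; simp
          simp only [Multiset.mem_cons, Multiset.mem_singleton] at this
          rcases this with rfl | rfl
          · exact hab
          · exact hac
        · have h3 : a ::ₘ ({c} : Multiset ℕ) = v ::ₘ {β} := by
            have := he'
            simp only [Multiset.insert_eq_cons] at this
            rw [Multiset.cons_swap] at this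
            exact (Multiset.cons_inj_right _).1 this
          have : v ∈ a ::ₘ ({c} : Multiset ℕ) := by rw [h3]; simp
          simp only [Multiset.mem_cons, Multiset.mem_singleton] at this
          rcases this with rfl | rfl
          · exact hab.symm
          · exact hbc
        · have h3 : a ::ₘ ({b} : Multiset ℕ) = v ::ₘ {β} := by
            have := he'
            simp only [Multiset.insert_eq_cons] at this
            rw [show (a ::ₘ b ::ₘ ({u} : Multiset ℕ)) = u ::ₘ a ::ₘ {b} by
              rw [← Multiset.singleton_add a, ← Multiset.singleton_add b,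
                ← Multiset.singleton_add u, ← Multiset.singleton_add a]
              rw [← add_assoc, add_comm]] at this
            exact (Multiset.cons_inj_right _).1 this
          have : v ∈ a ::ₘ ({b} : Multiset ℕ) := by rw [h3]; simp
          simp only [Multiset.mem_cons, Multiset.mem_singleton] at this
          rcases this with rfl | rfl
          · exact hac.symm
          · exact hbc.symm
      exact e α γ h'
    · rcases le_total α γ with hle | hle
      · rw [max_eq_right hle]; omega
      · rw [max_eq_left hle]; omega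
  obtain ⟨hcop, hα0, hβ0, hγ0, hmax⟩ := hfacts
  have hcopZ : Int.gcd A' (A' + B') = 1 := hcop
  have hA0 : A' ≠ 0 := Int.natAbs_ne_zero.1 hα0.ne'
  have hB0 : B' ≠ 0 := Int.natAbs_ne_zero.1 hβ0.ne'
  have hC0 : A' + B' ≠ 0 := Int.natAbs_ne_zero.1 hγ0.ne'
  -- numerator and denominator
  have hnd : ((A' : ℚ) / ((A' + B' : ℤ) : ℚ)).num.natAbs = α ∧
      ((A' : ℚ) / ((A' + B' : ℤ) : ℚ)).den = γ ∧
      ((((A' : ℚ) / ((A' + B' : ℤ) : ℚ)).den : ℤ) - ((A' : ℚ) / ((A' + B' : ℤ) : ℚ)).num).natAbs
        = β := by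
    rcases lt_or_gt_of_ne hC0 with hneg | hpos
    · have e : (A' : ℚ) / ((A' + B' : ℤ) : ℚ) = ((-A' : ℤ) : ℚ) / ((-(A' + B') : ℤ) : ℚ) := by
        push_cast
        rw [neg_div_neg_eq]
      have hcop' : Nat.Coprime (-A').natAbs (-(A' + B')).natAbs := by
        rw [Int.natAbs_neg, Int.natAbs_neg]; exact hcop
      have h1 := Rat.num_div_eq_of_coprime (a := -A') (b := -(A' + B')) (by omega) hcop'
      have h2 := Rat.den_div_eq_of_coprime (a := -A') (b := -(A' + B')) (by omega) hcop'
      rw [e, h1]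
      have h3 : ((((-A' : ℤ) : ℚ) / ((-(A' + B') : ℤ) : ℚ)).den : ℤ) = -(A' + B') := h2
      refine ⟨Int.natAbs_neg _, ?_, ?_⟩
      · omega
      · rw [h3]; omega
    · have h1 := Rat.num_div_eq_of_coprime (a := A') (b := A' + B') hpos hcop
      have h2 := Rat.den_div_eq_of_coprime (a := A') (b := A' + B') hpos hcop
      rw [h1]
      refine ⟨rfl, by omega, ?_⟩
      rw [h2]; omega
  obtain ⟨h1, h2, h3⟩ := hnd
  refine ⟨?_, ?_, ?_, ?_⟩
  · apply div_ne_zero
    · exact_mod_cast hA0
    · exact_mod_cast hC0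
  · intro he
    rw [div_eq_one_iff_eq (by exact_mod_cast hC0)] at he
    have : A' = A' + B' := by exact_mod_cast he
    omega
  · unfold N1
    rw [h1, h3, h2, sdiff_empty, log_R]
    congr 2
    rw [← hprod]
    ring
  · unfold ht
    rw [h1, h2, ← Real.log_mul]
    · apply Real.log_le_log (by exact_mod_cast hc)
      have : (c : ℝ) ≤ ((2 * max α γ : ℕ) : ℝ) := by exact_mod_cast hmax
      push_cast at this
      linarith
    · have : (0 : ℝ) < γ := by exact_mod_cast hγ0
      exact (lt_max_of_lt_right this).ne'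
    · norm_num

end Pool.Agent.L5helper92.TS
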