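import Mathlib
import Pool.Agent.L5helper92.TS.Basic

/-!
# The values of rational functions which are ramified over `0, 1, ∞` only
-/

set_option autoImplicit false

namespace Pool.Agent.L5helper92.TS

open Finset Polynomial
open Pool.Agent.N746.Self (R ABC Image hom)

/-- the values `p (t) / (p (t) + q (t))`, `t` rational -/
def Values (p q : ℤ[X]) : Set ℚ :=
  {x | ∃ t : ℚ, aeval t p + aeval t q ≠ 0 ∧ x = aeval t p / (aeval t p + aeval t q)}

theorem prod_dvd {h : ℂ[X]} (s : Multiset ℂ) (hs : ∀ r ∈ s, (X - C r) ∣ h) :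
    (s.map fun r => X - C r).prod ∣ h ^ s.card := by
  induction s using Multiset.induction_on with
  | empty => simp
  | cons r s ih =>
    rw [Multiset.map_cons, Multiset.prod_cons, Multiset.card_cons, pow_succ, mul_comm]
    exact mul_dvd_mul (ih fun x hx => hs x (Multiset.mem_cons_of_mem hx))
      (hs r (Multiset.mem_cons_self _ _))

/-- a polynomial whose zeros are zeros of `h` divides a multiple of a power of `h` -/
theorem dvd_of_zeros (f h : ℤ[X]) (hf : f ≠ 0)
    (hz : ∀ z : ℂ, aeval z f = 0 → aeval z h = 0) :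
    ∃ (k : ℕ) (M : ℤ), M ≠ 0 ∧ f ∣ C M * h ^ k := by
  set F : ℂ[X] := f.map (algebraMap ℤ ℂ) with hF
  set H : ℂ[X] := h.map (algebraMap ℤ ℂ) with hH
  have hF0 : F ≠ 0 := by
    rw [hF, Polynomial.map_ne_zero_iff]
    · exact hf
    · exact (algebraMap ℤ ℂ).injective_int
  have hsplit : F = C F.leadingCoeff * (F.roots.map fun r => X - C r).prod := by
    have := C_leadingCoeff_mul_prod_multiset_X_sub_C (splits_iff_card_roots.1 (IsAlgClosed.splits F))
    exact this.symm
  have h1 : F ∣ H ^ F.roots.card := by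
    have h2 : (F.roots.map fun r => X - C r).prod ∣ H ^ F.roots.card := by
      apply prod_dvd
      intro r hr
      rw [dvd_iff_isRoot, IsRoot, hH, eval_map_algebraMap]
      apply hz
      have := isRoot_of_mem_roots hr
      rwa [IsRoot, hF, eval_map_algebraMap] at this
    have hu : IsUnit (C F.leadingCoeff) := by
      rw [isUnit_C, isUnit_iff_ne_zero]
      exact leadingCoeff_ne_zero.2 hF0
    have h3 : C F.leadingCoeff * (F.roots.map fun r => X - C r).prod ∣ H ^ F.roots.card :=
      (hu.mul_left_dvd).2 h2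
    rwa [← hsplit] at h3
  set k := F.roots.card with hk
  have hcomp : (algebraMap ℚ ℂ).comp (algebraMap ℤ ℚ) = algebraMap ℤ ℂ := by
    ext
    simp
  have h4 : f.map (algebraMap ℤ ℚ) ∣ (h.map (algebraMap ℤ ℚ)) ^ k := by
    rw [← map_dvd_map' (algebraMap ℚ ℂ), Polynomial.map_pow, Polynomial.map_map,
      Polynomial.map_map, hcomp]
    exact h1
  obtain ⟨u, hu⟩ := h4
  obtain ⟨b, hb0, hb⟩ := IsLocalization.integerNormalization_spec (nonZeroDivisors ℤ) u
  refine ⟨k, b, nonZeroDivisors.ne_zero hb0, ?_⟩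
  refine ⟨IsLocalization.integerNormalization (nonZeroDivisors ℤ) u, ?_⟩
  have hinj : Function.Injective (Polynomial.map (algebraMap ℤ ℚ)) :=
    Polynomial.map_injective _ (algebraMap ℤ ℚ).injective_int
  apply hinj
  rw [Polynomial.map_mul, Polynomial.map_mul, Polynomial.map_pow, hu, hb, map_C]
  rw [Algebra.smul_def]
  have : (algebraMap ℤ ℚ[X]) b = C ((algebraMap ℤ ℚ) b) := by
    simp
  rw [this]
  ring

theorem aeval_comp_neg {A : Type} [CommRing A] [Algebra ℤ A] (p : ℤ[X]) (z : A) :
    aeval z (p.comp (-X)) = aeval (-z) p := by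
  rw [aeval_comp]
  simp

theorem natDegree_comp_neg (p : ℤ[X]) : (p.comp (-X)).natDegree = p.natDegree := by
  rw [natDegree_comp, natDegree_neg, natDegree_X, mul_one]

theorem comp_neg_ne_zero {p : ℤ[X]} (hp : p ≠ 0) : p.comp (-X) ≠ 0 := by
  intro h
  apply hp
  have := congrArg (fun r : ℤ[X] => r.comp (-X)) h
  simp only [comp_assoc, zero_comp] at this
  have e : (-X : ℤ[X]).comp (-X) = X := by simp
  rwa [e, comp_X] at this

/-- **Rational functions ramified over `0, 1, ∞` only.** -/
theorem belyi_iff (S : Finset ℕ) (d : ℕ) (p q g : ℤ[X]) (hp : p.natDegree ≤ d)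
    (hq : q.natDegree ≤ d) (hd : p.natDegree = d ∨ q.natDegree = d)
    (hcop : ∀ z : ℂ, aeval z p ≠ 0 ∨ aeval z q ≠ 0) (hg : g ≠ 0) (hgd : g.natDegree + 1 ≤ d)
    (h0 : p * q * (p + q) ≠ 0)
    (hz : ∀ z : ℂ, aeval z (p * q * (p + q)) = 0 → z = 0 ∨ z = 1 ∨ aeval z g = 0) :
    Truncated S (Values p q) ↔ Truncated S Set.univ := by
  set p' : ℤ[X] := p.comp (-X) with hp'
  set q' : ℤ[X] := q.comp (-X) with hq'
  set g' : ℤ[X] := g.comp (-X) with hg'
  have hp0 : p ≠ 0 := fun h => h0 (by rw [h]; ring)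
  have hq0 : q ≠ 0 := fun h => h0 (by rw [h]; ring)
  have e0 : p' * q' * (p' + q') = (p * q * (p + q)).comp (-X) := by
    rw [hp', hq', mul_comp, mul_comp, add_comp]
  have h0' : p' * q' * (p' + q') ≠ 0 := by rw [e0]; exact comp_neg_ne_zero h0
  obtain ⟨k, M, hM, hdvd⟩ := dvd_of_zeros (p' * q' * (p' + q')) (X * (X + 1) * g') h0' (by
    intro z hz'
    rw [e0, aeval_comp_neg] at hz'
    have h1 := hz _ hz'
    rw [map_mul, map_mul, map_add, aeval_X, map_one]
    rcases h1 with h1 | h1 | h1
    · have : z = 0 := by linear_combination -h1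
      rw [this]; ring
    · have : z + 1 = 0 := by linear_combination -h1
      rw [this]; ring
    · rw [hg', aeval_comp_neg, h1, mul_zero])
  have hgen := Pool.Agent.N746.Self.general d p' q' g' k M hM
    (by rw [hp', natDegree_comp_neg]; exact hp) (by rw [hq', natDegree_comp_neg]; exact hq)
    (by
      rcases hd with hd | hd
      · left
        have : p'.natDegree = d := by rw [hp', natDegree_comp_neg, hd]
        rw [← this]
        exact leadingCoeff_ne_zero.2 (comp_neg_ne_zero hp0)
      · right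
        have : q'.natDegree = d := by rw [hq', natDegree_comp_neg, hd]
        rw [← this]
        exact leadingCoeff_ne_zero.2 (comp_neg_ne_zero hq0))
    (by
      refine (Polynomial.isCoprime_iff_aeval_ne_zero_of_isAlgClosed (k := ℚ) ℂ _ _).2 ?_
      intro z
      have e : ∀ r : ℤ[X], aeval z (r.map (Int.castRingHom ℚ)) = aeval z r := fun r =>
        aeval_map_algebraMap ℚ z r
      rw [e, e, hp', hq', aeval_comp_neg, aeval_comp_neg]
      exact hcop _)
    (by rw [hg', natDegree_comp_neg]; exact hgd) (comp_neg_ne_zero hg) h0' hdvd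
  refine iff_of S _ _ hgen ?_
  rintro a b c ha hb hab habc ⟨x, y, m, hx, hy, hxy, hm, hms⟩
  have h1 := point_of_triple a b c ha hb hab habc _ _ m hm hms
  set A := hom d p' x y with hA
  set B := hom d q' x y with hB
  have hyZ : (y : ℤ) ≠ 0 := by exact_mod_cast hy.ne'
  have hev : ∀ r : ℤ[X], r.natDegree ≤ d → ((hom d (r.comp (-X)) x y : ℤ) : ℚ) =
      ((y : ℤ) : ℚ) ^ d * aeval (-(((x : ℤ) : ℚ) / ((y : ℤ) : ℚ))) r := by
    intro r hr
    rw [Pool.Agent.N746.Self.hom_eval (F := ℚ) d (r.comp (-X))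
      (by rw [natDegree_comp_neg]; exact hr) x y hyZ, ← aeval_comp_neg,
      show (Int.castRingHom ℚ) = algebraMap ℤ ℚ from rfl, eval_map_algebraMap]
  have hAe : (A : ℚ) = ((y : ℤ) : ℚ) ^ d * aeval (-(((x : ℤ) : ℚ) / ((y : ℤ) : ℚ))) p := hev p hp
  have hBe : (B : ℚ) = ((y : ℤ) : ℚ) ^ d * aeval (-(((x : ℤ) : ℚ) / ((y : ℤ) : ℚ))) q := hev q hq
  have hyq : ((y : ℤ) : ℚ) ^ d ≠ 0 := pow_ne_zero _ (by exact_mod_cast hyZ)
  have hAB : (A : ℚ) + B ≠ 0 := by
    intro h
    apply h1.1
    rw [h, div_zero]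
  refine ⟨(A : ℚ) / (A + B), ⟨-(((x : ℤ) : ℚ) / ((y : ℤ) : ℚ)), ?_, ?_⟩, h1⟩
  · intro h
    apply hAB
    rw [hAe, hBe, ← mul_add, h, mul_zero]
  · rw [hAe, hBe, ← mul_add, mul_div_mul_left _ _ hyq]

/-- the octahedral function -/
theorem oct_iff (S : Finset ℕ) :
    Truncated S {x : ℚ | ∃ t : ℚ, x = (t ^ 12 - 33 * t ^ 8 - 33 * t ^ 4 + 1) ^ 2 /
      (t ^ 8 + 14 * t ^ 4 + 1) ^ 3} ↔ Truncated S Set.univ := by
  set e : ℤ[X] := X ^ 12 - 33 * X ^ 8 - 33 * X ^ 4 + 1 with he
  set v : ℤ[X] := X * (X ^ 4 - 1) with hv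
  set f : ℤ[X] := X ^ 8 + 14 * X ^ 4 + 1 with hf
  have hsum : e ^ 2 + 108 * v ^ 4 = f ^ 3 := by rw [he, hv, hf]; ring
  have hde : e.natDegree = 12 := by rw [he]; compute_degree!
  have hdv : v.natDegree = 5 := by
    have : v = X ^ 5 - X := by rw [hv]; ring
    rw [this]; compute_degree!
  have hdf : f.natDegree = 8 := by rw [hf]; compute_degree!
  have he0 : e ≠ 0 := by intro h; rw [h, natDegree_zero] at hde; omega
  have hv0 : v ≠ 0 := by intro h; rw [h, natDegree_zero] at hdv; omega
  have hf0 : f ≠ 0 := by intro h; rw [h, natDegree_zero] at hdf; omega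
  have h108 : (108 : ℤ[X]) ≠ 0 := by norm_num
  have hd108 : (108 : ℤ[X]).natDegree = 0 := by
    have : (108 : ℤ[X]) = C 108 := by simp
    rw [this, natDegree_C]
  set g : ℤ[X] := (X + 1) * (X ^ 2 + 1) * e * f with hg
  have hx1 : (X + 1 : ℤ[X]) ≠ 0 := by
    intro h
    have := congrArg natDegree h
    rw [show (X + 1 : ℤ[X]).natDegree = 1 by compute_degree!, natDegree_zero] at this
    omega
  have hx2 : (X ^ 2 + 1 : ℤ[X]) ≠ 0 := by
    intro h
    have := congrArg natDegree h
    rw [show (X ^ 2 + 1 : ℤ[X]).natDegree = 2 by compute_degree!, natDegree_zero] at this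
    omega
  have hg0 : g ≠ 0 := mul_ne_zero (mul_ne_zero (mul_ne_zero hx1 hx2) he0) hf0
  have hdg : g.natDegree = 23 := by
    rw [hg, natDegree_mul (mul_ne_zero (mul_ne_zero hx1 hx2) he0) hf0,
      natDegree_mul (mul_ne_zero hx1 hx2) he0, natDegree_mul hx1 hx2, hde, hdf,
      show (X + 1 : ℤ[X]).natDegree = 1 by compute_degree!,
      show (X ^ 2 + 1 : ℤ[X]).natDegree = 2 by compute_degree!]
  have key := belyi_iff S 24 (e ^ 2) (108 * v ^ 4) g
    (by rw [natDegree_pow, hde]) (by
      rw [natDegree_mul h108 (pow_ne_zero _ hv0), natDegree_pow, hdv, hd108]; norm_num)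
    (Or.inl (by rw [natDegree_pow, hde])) (by
      intro z
      by_contra hcon
      push Not at hcon
      obtain ⟨h1, h2⟩ := hcon
      rw [map_pow, pow_eq_zero_iff (by norm_num)] at h1
      rw [map_mul, map_pow, mul_eq_zero, pow_eq_zero_iff (by norm_num)] at h2
      have h2' : aeval z v = 0 := by
        rcases h2 with h2 | h2
        · exfalso
          have : (aeval z (108 : ℤ[X]) : ℂ) = 108 := by
            have : (108 : ℤ[X]) = C 108 := by simp
            rw [this, aeval_C]; simp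
          rw [this] at h2
          norm_num at h2
        · exact h2
      simp only [he, hv, map_add, map_sub, map_mul, map_pow, aeval_X, map_one] at h1 h2'
      have h33 : (aeval z (33 : ℤ[X]) : ℂ) = 33 := by
        have : (33 : ℤ[X]) = C 33 := by simp
        rw [this, aeval_C]; simp
      rw [h33] at h1
      rcases mul_eq_zero.1 h2' with h3 | h3
      · rw [h3] at h1; norm_num at h1
      · have h4 : z ^ 4 = 1 := by linear_combination h3
        have e1 : z ^ 12 = (z ^ 4) ^ 3 := by ring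
        have e2 : z ^ 8 = (z ^ 4) ^ 2 := by ring
        rw [e1, e2, h4] at h1
        norm_num at h1)
    hg0 (by rw [hdg]) (by
      rw [hsum]
      exact mul_ne_zero (mul_ne_zero (pow_ne_zero _ he0) (mul_ne_zero h108 (pow_ne_zero _ hv0)))
        (pow_ne_zero _ hf0)) (by
      intro z h1
      rw [hsum, map_mul, map_mul, map_mul, map_pow, map_pow, map_pow, mul_eq_zero, mul_eq_zero,
        mul_eq_zero, pow_eq_zero_iff (by norm_num), pow_eq_zero_iff (by norm_num),
        pow_eq_zero_iff (by norm_num)] at h1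
      rw [hg, map_mul, map_mul, map_mul]
      rcases h1 with (h1 | h1 | h1) | h1
      · right; right; rw [h1]; ring
      · exfalso
        have : (aeval z (108 : ℤ[X]) : ℂ) = 108 := by
          have : (108 : ℤ[X]) = C 108 := by simp
          rw [this, aeval_C]; simp
        rw [this] at h1
        norm_num at h1
      · have e1 : v = X * (X - 1) * (X + 1) * (X ^ 2 + 1) := by rw [hv]; ring
        rw [e1, map_mul, map_mul, map_mul, mul_eq_zero, mul_eq_zero, mul_eq_zero] at h1
        rcases h1 with ((h1 | h1) | h1) | h1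
        · left; simpa using h1
        · right; left
          simp only [map_sub, aeval_X, map_one] at h1
          linear_combination h1
        · right; right; rw [h1]; ring
        · right; right; rw [h1]; ring
      · right; right; rw [h1]; ring)
  rw [← key]
  have hset : {x : ℚ | ∃ t : ℚ, x = (t ^ 12 - 33 * t ^ 8 - 33 * t ^ 4 + 1) ^ 2 /
      (t ^ 8 + 14 * t ^ 4 + 1) ^ 3} = Values (e ^ 2) (108 * v ^ 4) := by
    ext x
    have hval : ∀ t : ℚ, aeval t (e ^ 2) + aeval t (108 * v ^ 4) = (t ^ 8 + 14 * t ^ 4 + 1) ^ 3 := by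
      intro t
      rw [← map_add, hsum, hf]
      simp only [map_add, map_mul, map_pow, aeval_X, map_one]
      have : (aeval t (14 : ℤ[X]) : ℚ) = 14 := by
        have : (14 : ℤ[X]) = C 14 := by simp
        rw [this, aeval_C]; simp
      rw [this]
    have hval2 : ∀ t : ℚ, aeval t (e ^ 2) = (t ^ 12 - 33 * t ^ 8 - 33 * t ^ 4 + 1) ^ 2 := by
      intro t
      rw [he]
      simp only [map_add, map_sub, map_mul, map_pow, aeval_X, map_one]
      have : (aeval t (33 : ℤ[X]) : ℚ) = 33 := by
        have : (33 : ℤ[X]) = C 33 := by simp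
        rw [this, aeval_C]; simp
      rw [this]
    constructor
    · rintro ⟨t, ht⟩
      refine ⟨t, ?_, ?_⟩
      · rw [hval]; positivity
      · rw [hval, hval2]; exact ht
    · rintro ⟨t, -, ht⟩
      refine ⟨t, ?_⟩
      rw [hval, hval2] at ht
      exact ht
  rw [hset]

end Pool.Agent.L5helper92.TS
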