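import Mathlib
import Pool.Agent.L5helper92.TS.Basic

/-!
# Thin sets of rational points
-/

set_option autoImplicit false

namespace Pool.Agent.L5helper92.TS

open Finset Polynomial Filter
open Pool.Agent.N746.Self (R ABC Dihedral TwoCubesOneSquare Image hom)

theorem dih_iff (S : Finset ℕ) (n N r : ℕ) (hn : 1 ≤ n) (hN : 1 ≤ N) (δ : ℝ) (hδ : 0 < δ)
    (Y : ℕ → ℝ) (hY : ∀ i, 1 < Y i) (hYt : Tendsto Y atTop atTop)
    (hYr : ∀ i, Y (i + 1) ≤ (Y i) ^ r) :
    Truncated S (Dih n N δ Y) ↔ Truncated S Set.univ := by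
  refine iff_of S _ _ (Pool.Agent.N746.Self.family n N r hn hN δ hδ Y hY hYt hYr) ?_
  rintro a b c ha hb hab habc ⟨x, y, P, Q, h1, h2, h3, h4, h5, h6, h7, h8⟩
  subst h3 h4 h5
  have hQ : 1 ≤ Q := by
    rcases Nat.eq_zero_or_pos Q with h | h
    · rw [h] at hb; simp at hb
    · exact h
  have hPQ2 : Q ^ 2 < P ^ 2 := by omega
  have hPQ : Q < P := lt_of_pow_lt_pow_left₀ 2 (Nat.zero_le _) hPQ2
  have hcop : Nat.Coprime (P ^ 2) (Q ^ 2) := by
    rw [← habc]
    exact Nat.coprime_add_self_left.2 hab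
  have hcop' : Nat.Coprime P Q := by
    rwa [Nat.coprime_pow_left_iff (by norm_num), Nat.coprime_pow_right_iff (by norm_num)] at hcop
  have hsq : ((Q : ℚ) / P) ^ 2 = (((Q ^ 2 : ℕ) : ℤ) : ℚ) /
      ((((Q ^ 2 : ℕ) : ℤ) : ℚ) + ((((x * y) ^ n : ℕ) : ℤ) : ℚ)) := by
    have : ((((Q ^ 2 : ℕ) : ℤ) : ℚ) + ((((x * y) ^ n : ℕ) : ℤ) : ℚ)) = ((P : ℚ)) ^ 2 := by
      have h9 : (Q ^ 2 + (x * y) ^ n : ℕ) = P ^ 2 := by omega
      exact_mod_cast h9
    rw [this, div_pow]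
    push_cast
    rfl
  refine ⟨((Q : ℚ) / P) ^ 2, ⟨P, Q, x, y, hQ, hPQ, hcop', h1, by omega, h6, h7, ?_, rfl⟩, ?_⟩
  · obtain ⟨i, hi1, hi2⟩ := h8
    refine ⟨i, ?_, ?_⟩
    · exact_mod_cast hi1
    · exact_mod_cast hi2
  · rw [hsq]
    have h10 := point_of_triple ((x * y) ^ n) (Q ^ 2) (P ^ 2) ha hb hab habc ((Q ^ 2 : ℕ) : ℤ)
      (((x * y) ^ n : ℕ) : ℤ) 1 one_pos (by
        have e1 : (((Q ^ 2 : ℕ) : ℤ) + (((x * y) ^ n : ℕ) : ℤ)).natAbs = P ^ 2 := by
          have : (((Q ^ 2 : ℕ) : ℤ) + (((x * y) ^ n : ℕ) : ℤ)) = ((P ^ 2 : ℕ) : ℤ) := by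
            have h9 : (Q ^ 2 + (x * y) ^ n : ℕ) = P ^ 2 := by omega
            exact_mod_cast h9
          rw [this, Int.natAbs_natCast]
        rw [e1, Int.natAbs_natCast, Int.natAbs_natCast, one_mul, one_mul, one_mul]
        exact Multiset.cons_swap _ _ _)
    exact h10

/-- the number of the points in `Dih` of height at most `X` -/
theorem dih_count (n N : ℕ) (hn : 1 ≤ n) (δ : ℝ) (Y : ℕ → ℝ) (X : ℝ) (hX : 1 ≤ X) :
    {x : ℚ | x ∈ Dih n N δ Y ∧ max (x.num.natAbs : ℝ) x.den ≤ X}.Finite ∧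
    ({x : ℚ | x ∈ Dih n N δ Y ∧ max (x.num.natAbs : ℝ) x.den ≤ X}.ncard : ℝ) ≤
      (4 * X) ^ (1 / (n : ℝ)) := by
  obtain ⟨hfin, hcard⟩ := Pool.Agent.N746.Self.count n N hn δ Y X hX
  have hsub : {x : ℚ | x ∈ Dih n N δ Y ∧ max (x.num.natAbs : ℝ) x.den ≤ X} ⊆
      (fun t : ℕ × ℕ × ℕ => (t.2.1 : ℚ) / t.2.2) ''
        {t : ℕ × ℕ × ℕ | 0 < t.1 ∧ (t.2.2 : ℝ) ≤ X ∧ Dihedral n N δ Y t.1 t.2.1 t.2.2} := by
    rintro x ⟨⟨P, Q, u, v, hQ, hPQ, hcop, h1, h2, h3, h4, ⟨i, hi1, hi2⟩, rfl⟩, hX'⟩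
    refine ⟨((u * v) ^ n, Q ^ 2, P ^ 2), ⟨?_, ?_, u, v, P, Q, h1, by omega, rfl, rfl, rfl, h3,
      h4, i, ?_, ?_⟩, ?_⟩
    · simp only
      rw [mul_pow, ← h1, ← h2]
      exact Nat.mul_pos (by omega) (by omega)
    · have e : ((Q : ℚ) / P) ^ 2 = (((Q ^ 2 : ℕ) : ℤ) : ℚ) / (((P ^ 2 : ℕ) : ℤ) : ℚ) := by
        rw [div_pow]; push_cast; rfl
      have hP2 : 0 < ((P ^ 2 : ℕ) : ℤ) := by
        have hP0 : 0 < P := by omega
        have : 0 < P ^ 2 := by positivity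
        exact_mod_cast this
      have hc : Nat.Coprime ((Q ^ 2 : ℕ) : ℤ).natAbs ((P ^ 2 : ℕ) : ℤ).natAbs := by
        rw [Int.natAbs_natCast, Int.natAbs_natCast]
        exact (Nat.Coprime.pow 2 2 hcop).symm
      have hden := Rat.den_div_eq_of_coprime hP2 hc
      rw [← e] at hden
      have hden' : (((Q : ℚ) / P) ^ 2).den = P ^ 2 := by exact_mod_cast hden
      have := (le_max_right _ _).trans hX'
      rw [hden'] at this
      exact this
    · push_cast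
      exact hi1
    · push_cast
      exact hi2
    · simp only
      rw [div_pow]
      push_cast
      rfl
  have hfin' := hfin.image (fun t : ℕ × ℕ × ℕ => (t.2.1 : ℚ) / t.2.2)
  refine ⟨hfin'.subset hsub, ?_⟩
  refine le_trans ?_ hcard
  exact_mod_cast (Set.ncard_le_ncard hsub hfin').trans (Set.ncard_image_le hfin)

/-- the points `u ^ 3 / w ^ 2` for the coprime solutions of `u ^ 3 + v ^ 3 = w ^ 2` -/
def Tet : Set ℚ :=
  {x | ∃ u v w : ℤ, IsCoprime u v ∧ w ≠ 0 ∧ u ^ 3 + v ^ 3 = w ^ 2 ∧ x = (u : ℚ) ^ 3 / w ^ 2}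

theorem tet_iff (S : Finset ℕ) : Truncated S Tet ↔ Truncated S Set.univ := by
  refine iff_of S _ _ Pool.Agent.N746.Self.two_cubes ?_
  rintro a b c ha hb hab habc ⟨X, Y, Z, h⟩
  have hc : 0 < c := by omega
  have hac : Nat.Coprime a c := by rw [← habc]; simpa using hab
  have hbc : Nat.Coprime b c := by rw [← habc]; simpa using hab.symm
  -- the general step
  have step : ∀ (u v : ℤ) (w : ℕ), Nat.Coprime (u ^ 3).natAbs (v ^ 3).natAbs → w ≠ 0 →
      u ^ 3 + v ^ 3 = (w : ℤ) ^ 2 →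
      ({a, b, c} : Multiset ℕ) = {(u ^ 3).natAbs, (v ^ 3).natAbs, w ^ 2} →
      ∃ x ∈ Tet, x ≠ 0 ∧ x ≠ 1 ∧ N1 ∅ x = Real.log (R (a * b * c)) ∧
        Real.log c ≤ ht x + Real.log 2 := by
    intro u v w hcop hw huv hms
    have hcop' : IsCoprime u v := by
      have : IsCoprime (u ^ 3) (v ^ 3) := Int.isCoprime_iff_gcd_eq_one.2 hcop
      exact (IsCoprime.pow_iff (by norm_num) (by norm_num)).1 this
    have h1 := point_of_triple a b c ha hb hab habc (u ^ 3) (v ^ 3) 1 one_pos (by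
      rw [one_mul, one_mul, one_mul, hms, huv, Int.natAbs_pow w, Int.natAbs_natCast])
    have e : (((u ^ 3 : ℤ) : ℚ) / (((u ^ 3 : ℤ) : ℚ) + ((v ^ 3 : ℤ) : ℚ))) =
        (u : ℚ) ^ 3 / ((w : ℤ) : ℚ) ^ 2 := by
      rw [← Int.cast_add, huv]
      push_cast
      rfl
    rw [e] at h1
    exact ⟨_, ⟨u, v, w, hcop', by exact_mod_cast hw, huv, rfl⟩, h1⟩
  have cube : ∀ W : ℕ, ((W : ℤ) ^ 3).natAbs = W ^ 3 := by
    intro W; rw [Int.natAbs_pow, Int.natAbs_natCast]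
  have cube' : ∀ W : ℕ, ((-(W : ℤ)) ^ 3).natAbs = W ^ 3 := by
    intro W; rw [Int.natAbs_pow, Int.natAbs_neg, Int.natAbs_natCast]
  -- position of the square
  have hZ : Z ^ 2 ∈ ({a, b, c} : Multiset ℕ) := by rw [h]; simp
  simp only [Multiset.insert_eq_cons, Multiset.mem_cons, Multiset.mem_singleton] at hZ
  have hXY : ({a, b, c} : Multiset ℕ) = Z ^ 2 ::ₘ X ^ 3 ::ₘ {Y ^ 3} := by
    rw [h]
    simp only [Multiset.insert_eq_cons, ← Multiset.singleton_add]
    rw [← add_assoc, add_comm]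
  have two : ∀ s t : ℕ, (s ::ₘ {t} : Multiset ℕ) = X ^ 3 ::ₘ {Y ^ 3} →
      ∃ s' t' : ℕ, s = s' ^ 3 ∧ t = t' ^ 3 := by
    intro s t hst
    have hs : s ∈ (X ^ 3 ::ₘ {Y ^ 3} : Multiset ℕ) := by rw [← hst]; simp
    have ht' : t ∈ (X ^ 3 ::ₘ {Y ^ 3} : Multiset ℕ) := by rw [← hst]; simp
    simp only [Multiset.mem_cons, Multiset.mem_singleton] at hs ht'
    refine ⟨if s = X ^ 3 then X else Y, if t = X ^ 3 then X else Y, ?_, ?_⟩
    · split_ifs with e
      · exact e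
      · tauto
    · split_ifs with e
      · exact e
      · tauto
  rcases hZ with hZ | hZ | hZ
  · -- the square is `a`
    have h3 : (b ::ₘ {c} : Multiset ℕ) = X ^ 3 ::ₘ {Y ^ 3} := by
      have := hXY
      simp only [Multiset.insert_eq_cons] at this
      rw [hZ] at this
      exact (Multiset.cons_inj_right _).1 this
    obtain ⟨s, t, hs, ht'⟩ := two b c h3
    refine step t (-(s : ℤ)) Z ?_ ?_ ?_ ?_
    · rw [cube, cube', ← hs, ← ht']; exact hbc.symm
    · rintro rfl; rw [← hZ] at ha; simp at ha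
    · have : (b : ℤ) + Z ^ 2 = c := by
        have : b + Z ^ 2 = c := by omega
        exact_mod_cast this
      rw [hs, ht'] at this
      push_cast at this
      linear_combination -this
    · rw [cube, cube', ← hs, ← ht', hZ]
      simp only [Multiset.insert_eq_cons, ← Multiset.singleton_add]
      abel
  · -- the square is `b`
    have h3 : (a ::ₘ {c} : Multiset ℕ) = X ^ 3 ::ₘ {Y ^ 3} := by
      have := hXY
      simp only [Multiset.insert_eq_cons] at this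
      rw [hZ, Multiset.cons_swap] at this
      exact (Multiset.cons_inj_right _).1 this
    obtain ⟨s, t, hs, ht'⟩ := two a c h3
    refine step t (-(s : ℤ)) Z ?_ ?_ ?_ ?_
    · rw [cube, cube', ← hs, ← ht']; exact hac.symm
    · rintro rfl; rw [← hZ] at hb; simp at hb
    · have : (a : ℤ) + Z ^ 2 = c := by
        have : a + Z ^ 2 = c := by omega
        exact_mod_cast this
      rw [hs, ht'] at this
      push_cast at this
      linear_combination -this
    · rw [cube, cube', ← hs, ← ht', hZ]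
      simp only [Multiset.insert_eq_cons, ← Multiset.singleton_add]
      abel
  · -- the square is `c`
    have h3 : (a ::ₘ {b} : Multiset ℕ) = X ^ 3 ::ₘ {Y ^ 3} := by
      have := hXY
      simp only [Multiset.insert_eq_cons] at this
      rw [hZ, show (a ::ₘ b ::ₘ ({c} : Multiset ℕ)) = c ::ₘ a ::ₘ {b} by
        simp only [← Multiset.singleton_add]; abel] at this
      exact (Multiset.cons_inj_right _).1 this
    obtain ⟨s, t, hs, ht'⟩ := two a b h3
    refine step s t Z ?_ ?_ ?_ ?_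
    · rw [cube, cube, ← hs, ← ht']; exact hab
    · rintro rfl; rw [← hZ] at hc; simp at hc
    · have : (a : ℤ) + b = Z ^ 2 := by
        have : a + b = Z ^ 2 := by omega
        exact_mod_cast this
      rw [hs, ht'] at this
      push_cast at this
      exact this
    · rw [cube, cube, ← hs, ← ht', hZ]

end Pool.Agent.L5helper92.TS
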