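import Mathlib
import Pool.Agent.L5helper92.TS.Sets
import Pool.Agent.L5helper92.TS.Belyi

/-!
# The truncated inequality for the images of a set of points (adapted from `Pool.Agent.N746.Self`)
-/

set_option autoImplicit false

namespace Pool.Agent.L5helper92.TS

open Finset Polynomial Filter
open Pool.Agent.N746.Self

/-- **Transfer**, for the triples with the property `T₀`. -/
theorem transferOn (T₀ T : ℕ → ℕ → ℕ → Prop) (D : ℕ) (K : ℝ) (c₀ : ℕ) (hK : 1 ≤ K)
    (h : ∀ a b c : ℕ, 0 < a → 0 < b → Nat.Coprime a b → a + b = c → T₀ a b c → c₀ ≤ c →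
      ∃ d a' b' c' : ℕ, 1 ≤ d ∧ d ≤ D ∧ 0 < a' ∧ 0 < b' ∧ Nat.Coprime a' b' ∧ a' + b' = c' ∧
        T a' b' c' ∧ (c : ℝ) ^ d ≤ K * c' ∧
        (R (a' * b' * c') : ℝ) ≤ K * R (a * b * c) * (c : ℝ) ^ (d - 1))
    (hT : ABC T) : ABC T₀ := by
  intro ε hε
  set E : ℝ := 1 + D * (1 + ε) with hE
  have hE1 : 1 ≤ E := by rw [hE]; have : (0:ℝ) ≤ D * (1 + ε) := by positivity
                         linarith
  set ε' : ℝ := ε / E with hε'
  have hε'0 : 0 < ε' := by rw [hε']; positivity
  obtain ⟨κ', hκ'⟩ := hT ε' hε'0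
  set κ₁ : ℝ := max κ' 1 with hκ₁
  have hκ1 : 1 ≤ κ₁ := le_max_right _ _
  have hεE : ε' * E = ε := by rw [hε']; field_simp
  set e : ℝ := 1 - D * ε' with he
  have hkey : (1 + ε) * e = 1 + ε' := by
    rw [he]
    have : ε' * (1 + D * (1 + ε)) = ε := by rw [← hE]; exact hεE
    linarith
  have he0 : 0 < e := by
    have : 0 < (1 + ε) * e := by rw [hkey]; linarith
    exact (mul_pos_iff_of_pos_left (by linarith)).1 this
  set C : ℝ := Real.log K + Real.log κ₁ + (1 + ε') * Real.log K with hC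
  have hlK : 0 ≤ Real.log K := Real.log_nonneg hK
  have hlκ : 0 ≤ Real.log κ₁ := Real.log_nonneg hκ1
  have hC0 : 0 ≤ C := by rw [hC]; positivity
  refine ⟨max (Real.exp (C / e)) (c₀ + 1), ?_⟩
  intro a b c ha hb hab habc hT0
  have hc : 0 < c := by omega
  have hR1 : (1 : ℝ) ≤ R (a * b * c) := by exact_mod_cast R_pos _
  have hR0 : (0 : ℝ) < R (a * b * c) := by linarith
  have hRp : (1 : ℝ) ≤ (R (a * b * c) : ℝ) ^ (1 + ε) := Real.one_le_rpow hR1 (by linarith)
  rcases Nat.lt_or_ge c c₀ with hlt | hge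
  · have h1 : (c : ℝ) ≤ c₀ := by exact_mod_cast hlt.le
    have h2 : (c₀ : ℝ) + 1 ≤ max (Real.exp (C / e)) (c₀ + 1) := le_max_right _ _
    have h3 : (0 : ℝ) ≤ max (Real.exp (C / e)) (c₀ + 1) := le_trans (by positivity) h2
    calc (c : ℝ) ≤ max (Real.exp (C / e)) (c₀ + 1) * 1 := by linarith
      _ ≤ _ := mul_le_mul_of_nonneg_left hRp h3
  · obtain ⟨d, a', b', c', hd1, hdD, ha', hb', hab', habc', hT', hcd, hRR⟩ :=
      h a b c ha hb hab habc hT0 hge
    have hc' : 0 < c' := by omega
    have h1 := hκ' a' b' c' ha' hb' hab' habc' hT'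
    have hR'1 : (1 : ℝ) ≤ R (a' * b' * c') := by exact_mod_cast R_pos _
    have hR'0 : (0 : ℝ) < R (a' * b' * c') := by linarith
    have hcR : (1 : ℝ) ≤ c := by exact_mod_cast hc
    have hcR' : (1 : ℝ) ≤ c' := by exact_mod_cast hc'
    have h2 : (c' : ℝ) ≤ κ₁ * (R (a' * b' * c') : ℝ) ^ (1 + ε') := by
      refine h1.trans (mul_le_mul_of_nonneg_right (le_max_left _ _) ?_)
      exact Real.rpow_nonneg hR'0.le _
    -- logarithms
    set ℓ := Real.log c with hℓ
    have hℓ0 : 0 ≤ ℓ := Real.log_nonneg hcR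
    have l1 : d * ℓ ≤ Real.log K + Real.log c' := by
      have := Real.log_le_log (by positivity) hcd
      rw [Real.log_pow, Real.log_mul (by linarith) (by linarith)] at this
      exact this
    have l2 : Real.log c' ≤ Real.log κ₁ + (1 + ε') * Real.log (R (a' * b' * c')) := by
      have := Real.log_le_log (by linarith) h2
      rw [Real.log_mul (by linarith) (Real.rpow_pos_of_pos hR'0 _).ne', Real.log_rpow hR'0] at this
      exact this
    have l3 : Real.log (R (a' * b' * c')) ≤
        Real.log K + Real.log (R (a * b * c)) + (d - 1 : ℝ) * ℓ := by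
      have := Real.log_le_log hR'0 hRR
      rw [Real.log_mul (by positivity) (by positivity), Real.log_mul (by linarith) hR0.ne',
        Real.log_pow, Nat.cast_sub hd1, Nat.cast_one] at this
      exact this
    set ρ := Real.log (R (a * b * c)) with hρ
    have hρ0 : 0 ≤ ρ := Real.log_nonneg hR1
    have hdD' : (d : ℝ) ≤ D := by exact_mod_cast hdD
    have hd1' : (1 : ℝ) ≤ d := by exact_mod_cast hd1
    have l4 : d * ℓ ≤ C + (1 + ε') * (ρ + (d - 1) * ℓ) := by
      have := mul_le_mul_of_nonneg_left l3 (show (0:ℝ) ≤ 1 + ε' by linarith)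
      rw [hC]
      nlinarith
    have l5 : e * ℓ ≤ C + (1 + ε') * ρ := by
      have : (d - 1 : ℝ) * ε' * ℓ ≤ D * ε' * ℓ := by
        apply mul_le_mul_of_nonneg_right _ hℓ0
        apply mul_le_mul_of_nonneg_right _ hε'0.le
        linarith
      rw [he]
      nlinarith
    have l6 : ℓ ≤ C / e + (1 + ε) * ρ := by
      have : ℓ ≤ (C + (1 + ε') * ρ) / e := by
        rw [le_div_iff₀ he0]; linarith
      calc ℓ ≤ (C + (1 + ε') * ρ) / e := this
        _ = C / e + (1 + ε) * ρ := by
          rw [← hkey]; field_simp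
    have l7 : (c : ℝ) ≤ Real.exp (C / e) * (R (a * b * c) : ℝ) ^ (1 + ε) := by
      rw [Real.rpow_def_of_pos hR0, ← Real.exp_add, ← Real.exp_log (show (0:ℝ) < c by linarith)]
      apply Real.exp_le_exp.2
      rw [← hℓ, ← hρ]
      linarith
    refine l7.trans (mul_le_mul_of_nonneg_right (le_max_left _ _) ?_)
    exact Real.rpow_nonneg hR0.le _

/-- the triples given, up to the order and a common factor, by the absolute values of the forms `A`, `B`,
`A + B` of degree `d` at `(b, c)`, for the triples `(a, b, c)` with the property `T` -/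
def Push (d : ℕ) (p q : ℤ[X]) (T : ℕ → ℕ → ℕ → Prop) (a' b' c' : ℕ) : Prop :=
  ∃ a b c m : ℕ, 0 < a ∧ 0 < b ∧ Nat.Coprime a b ∧ a + b = c ∧ T a b c ∧ 0 < m ∧
    ({m * a', m * b', m * c'} : Multiset ℕ) =
      {(hom d p b c).natAbs, (hom d q b c).natAbs, (hom d p b c + hom d q b c).natAbs}

/-- **The general principle**, for the triples with the property `T`. -/
theorem push (d : ℕ) (p q g : ℤ[X]) (k : ℕ) (M : ℤ) (hM : M ≠ 0)
    (hp : p.natDegree ≤ d) (hq : q.natDegree ≤ d) (hpq : p.coeff d ≠ 0 ∨ q.coeff d ≠ 0)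
    (hcop : IsCoprime (p.map (Int.castRingHom ℚ)) (q.map (Int.castRingHom ℚ)))
    (hg : g.natDegree + 1 ≤ d) (hg0 : g ≠ 0) (h0 : p * q * (p + q) ≠ 0)
    (hdvd : p * q * (p + q) ∣ C M * (X * (X - 1) * g) ^ k) (T : ℕ → ℕ → ℕ → Prop)
    (hT : ABC (Push d p q T)) : ABC T := by
  have hd : 1 ≤ d := by omega
  have hp0 : p ≠ 0 := fun h => h0 (by rw [h]; ring)
  have hq0 : q ≠ 0 := fun h => h0 (by rw [h]; ring)
  have hpq0 : p + q ≠ 0 := fun h => h0 (by rw [h]; ring)
  obtain ⟨c₁, hc₁⟩ := zeros d p hp hp0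
  obtain ⟨c₂, hc₂⟩ := zeros d q hq hq0
  obtain ⟨c₃, hc₃⟩ := zeros d (p + q) ((natDegree_add_le _ _).trans (max_le hp hq)) hpq0
  obtain ⟨c₄, hc₄⟩ := zeros (d - 1) g (by omega) hg0
  obtain ⟨K₁, hK₁, hK₁'⟩ := hom_le (d - 1) g
  obtain ⟨κ, hκ, hκ'⟩ := max_ge d p q hp hq hpq hcop
  obtain ⟨Δ, hΔ, hΔ'⟩ := gcd_dvd d p q hp hq hpq hcop
  have hM1 : 1 ≤ M.natAbs := Int.natAbs_pos.2 hM
  have hΔ1 : 1 ≤ Δ.natAbs := Int.natAbs_pos.2 hΔ
  obtain ⟨h, hh⟩ := hdvd
  set e := h.natDegree with he
  refine transferOn T (Push d p q T) d (max (max 1 (Δ.natAbs / κ)) (M.natAbs * (K₁ * 2 ^ (d - 1)))) (c₁ + c₂ + c₃ + c₄)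
    (le_trans (le_max_left _ _) (le_max_left _ _)) ?_ hT
  intro a b c ha hb hab habc hTabc hc
  have hc0 : 0 < c := by omega
  have hbc : Nat.Coprime b c := by rw [← habc]; simpa using hab.symm
  have n1 : hom d p b c ≠ 0 := hc₁ b c hb hc0 hbc (by omega)
  have n2 : hom d q b c ≠ 0 := hc₂ b c hb hc0 hbc (by omega)
  have n3 : hom d p b c + hom d q b c ≠ 0 := by
    rw [← hom_add]; exact hc₃ b c hb hc0 hbc (by omega)
  have n4 : hom (d - 1) g b c ≠ 0 := hc₄ b c hb hc0 hbc (by omega)
  obtain ⟨m, a', b', c', hm, ha', hb', hab', habc', hms, hmα, hmβ, hα, hβ, hpr⟩ :=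
    arrange _ _ n1 n2 n3
  refine ⟨d, a', b', c', hd, le_rfl, ha', hb', hab', habc',
    ⟨a, b, c, m, ha, hb, hab, habc, hTabc, hm, hms⟩, ?_, ?_⟩
  · -- the height
    have hmΔ : m ≤ Δ.natAbs := by
      have := hΔ' b c hb hc0 hbc m hmα hmβ
      rw [← Int.natAbs_dvd_natAbs, Int.natAbs_natCast] at this
      exact Nat.le_of_dvd hΔ1 this
    have h1 := hκ' b c hb hc0
    have h2 : max |(hom d p b c : ℝ)| |(hom d q b c : ℝ)| ≤ m * c' := by
      have e1 : ((hom d p b c).natAbs : ℝ) = |(hom d p b c : ℝ)| := by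
        rw [Nat.cast_natAbs, Int.cast_abs]
      have e2 : ((hom d q b c).natAbs : ℝ) = |(hom d q b c : ℝ)| := by
        rw [Nat.cast_natAbs, Int.cast_abs]
      rw [← e1, ← e2]
      refine max_le ?_ ?_
      · exact_mod_cast hα
      · exact_mod_cast hβ
    have h3 : (m : ℝ) * c' ≤ Δ.natAbs * c' :=
      mul_le_mul_of_nonneg_right (by exact_mod_cast hmΔ) (Nat.cast_nonneg _)
    have h5 : (c : ℝ) ^ d ≤ ((b + c : ℕ) : ℝ) ^ d :=
      pow_le_pow_left₀ (Nat.cast_nonneg _) (by exact_mod_cast (by omega : c ≤ b + c)) d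
    have h6 : κ * (c : ℝ) ^ d ≤ κ * ((b + c : ℕ) : ℝ) ^ d := mul_le_mul_of_nonneg_left h5 hκ.le
    have h4 : (c : ℝ) ^ d ≤ Δ.natAbs / κ * c' := by
      rw [div_mul_eq_mul_div, le_div_iff₀ hκ]
      linarith
    refine h4.trans (mul_le_mul_of_nonneg_right ?_ (Nat.cast_nonneg _))
    exact le_trans (le_max_right _ _) (le_max_left _ _)
  · -- the radical
    have hc0' : (c : ℤ) ≠ 0 := by exact_mod_cast hc0.ne'
    have hprime : ∀ r : ℕ, r.Prime → r ∣ a' * b' * c' →
        r ∣ M.natAbs * (a * b * c) * (hom (d - 1) g b c).natAbs := by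
      intro r hr hrd
      have h1 := hpr r hr hrd
      -- homogenize the divisibility
      set E := e + k * (d + 1) with hE
      have e1 : hom (d + d + d + E) (p * q * (p + q) * h) b c =
          hom d p b c * hom d q b c * (hom d p b c + hom d q b c) * hom E h b c := by
        rw [hom_mul (d + d + d) E (p * q * (p + q)) h _ (by omega) _ _ hc0',
          hom_mul (d + d) d (p * q) (p + q) _ ((natDegree_add_le _ _).trans (max_le hp hq)) _ _ hc0',
          hom_mul d d p q hp hq _ _ hc0', hom_add]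
        · exact natDegree_mul_le.trans (by omega)
        · refine natDegree_mul_le.trans (Nat.add_le_add (natDegree_mul_le.trans (by omega)) ?_)
          exact (natDegree_add_le _ _).trans (max_le hp hq)
      have hX1d : (X - 1 : ℤ[X]).natDegree ≤ 1 := by
        refine (natDegree_sub_le _ _).trans (max_le natDegree_X_le ?_)
        simp
      have hdX : (X * (X - 1) * g : ℤ[X]).natDegree ≤ d + 1 := by
        refine natDegree_mul_le.trans ?_
        have : (X * (X - 1) : ℤ[X]).natDegree ≤ 2 := by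
          refine natDegree_mul_le.trans ?_
          have h1 : (X : ℤ[X]).natDegree ≤ 1 := natDegree_X_le
          omega
        omega
      have e2 : ∀ k : ℕ, hom (k * (d + 1)) ((X * (X - 1) * g) ^ k) b c =
          (b * (b - c) * hom (d - 1) g b c) ^ k := by
        intro k
        have hX : hom 1 (X : ℤ[X]) b c = b := by
          unfold hom; simp [coeff_X]
        have hX1 : hom 1 (X - 1 : ℤ[X]) b c = b - c := by
          unfold hom; simp [sum_range_succ, coeff_X, coeff_one]; ring
        have hbase : hom (d + 1) (X * (X - 1) * g : ℤ[X]) b c = b * (b - c) * hom (d - 1) g b c := by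
          have ed : d + 1 = (1 + 1) + (d - 1) := by omega
          rw [ed, hom_mul (1 + 1) (d - 1) _ _ _ (by omega) _ _ hc0',
            hom_mul 1 1 _ _ natDegree_X_le hX1d _ _ hc0', hX, hX1]
          exact natDegree_mul_le.trans (by have := natDegree_X_le (R := ℤ); omega)
        induction k with
        | zero =>
          unfold hom; simp
        | succ k ih =>
          rw [pow_succ, add_mul, one_mul, hom_mul (k * (d + 1)) (d + 1) _ _ _ hdX _ _ hc0', ih, hbase,
            pow_succ]
          exact natDegree_pow_le.trans (Nat.mul_le_mul_left _ hdX)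
      have e3 : hom (d + d + d + E) (C M * (X * (X - 1) * g) ^ k) b c =
          M * c ^ (d + d + d + e) * (b * (b - c) * hom (d - 1) g b c) ^ k := by
        have eq1 : d + d + d + E = (d + d + d + e) + k * (d + 1) := by omega
        have hC : hom (d + d + d + e) (C M) b c = M * c ^ (d + d + d + e) := by
          unfold hom
          rw [sum_range_succ', sum_eq_zero]
          · simp
          · intro i _
            rw [coeff_C_of_ne_zero (by omega)]
            ring
        rw [eq1, hom_mul _ _ _ _ (by rw [natDegree_C]; omega) _ _ _ hc0', hC, e2]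
        exact natDegree_pow_le.trans (Nat.mul_le_mul_left _ hdX)
      have h2 : (r : ℤ) ∣ M * c ^ (d + d + d + e) * (b * (b - c) * hom (d - 1) g b c) ^ k := by
        rw [← e3, hh, e1]
        exact h1.mul_right _
      have hrp : Prime (r : ℤ) := Nat.prime_iff_prime_int.1 hr
      have h3 : (r : ℤ) ∣ M * (a * b * c) * hom (d - 1) g b c := by
        have hcc : (b : ℤ) - c = -a := by
          have : (a : ℤ) + b = c := by exact_mod_cast habc
          linarith
        rcases hrp.dvd_mul.1 h2 with h | h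
        · rcases hrp.dvd_mul.1 h with h | h
          · exact (h.mul_right _).mul_right _
          · have := hrp.dvd_of_dvd_pow h
            refine Dvd.dvd.mul_right (Dvd.dvd.mul_left ?_ _) _
            exact this.mul_left _
        · have := hrp.dvd_of_dvd_pow h
          rcases hrp.dvd_mul.1 this with h | h
          · refine Dvd.dvd.mul_right (Dvd.dvd.mul_left ?_ _) _
            rcases hrp.dvd_mul.1 h with h | h
            · exact (h.mul_left _).mul_right _
            · rw [hcc, dvd_neg] at h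
              exact (h.mul_right _).mul_right _
          · exact h.mul_left _
      rw [← Int.natAbs_dvd_natAbs, Int.natAbs_natCast] at h3
      simpa [Int.natAbs_mul] using h3
    have hne : M.natAbs * (a * b * c) * (hom (d - 1) g b c).natAbs ≠ 0 := by
      have h1 := Int.natAbs_pos.2 n4
      have : 0 < c := by omega
      positivity
    have habc0 : a * b * c ≠ 0 := by
      have : 0 < c := by omega
      positivity
    have hKc : (hom (d - 1) g b c).natAbs ≤ K₁ * 2 ^ (d - 1) * c ^ (d - 1) := by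
      refine (hK₁' b c).trans ?_
      rw [mul_assoc, ← mul_pow]
      exact Nat.mul_le_mul_left _ (Nat.pow_le_pow_left (by omega) _)
    have h1 : R (a' * b' * c') ≤ M.natAbs * R (a * b * c) * (K₁ * 2 ^ (d - 1) * c ^ (d - 1)) := by
      calc R (a' * b' * c') ≤ R (M.natAbs * (a * b * c) * (hom (d - 1) g b c).natAbs) :=
            R_le_of_primes hne hprime
        _ ≤ R (M.natAbs * (a * b * c)) * R (hom (d - 1) g b c).natAbs :=
            R_mul_le _ _ (mul_ne_zero (by omega) habc0) (by have := Int.natAbs_pos.2 n4; omega)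
        _ ≤ (R M.natAbs * R (a * b * c)) * R (hom (d - 1) g b c).natAbs :=
            Nat.mul_le_mul_right _ (R_mul_le _ _ (by omega) habc0)
        _ ≤ (M.natAbs * R (a * b * c)) * (hom (d - 1) g b c).natAbs :=
            Nat.mul_le_mul (Nat.mul_le_mul_right _ (R_le (by omega))) (R_le (Int.natAbs_pos.2 n4))
        _ ≤ _ := Nat.mul_le_mul_left _ hKc
    have h2 : (R (a' * b' * c') : ℝ) ≤
        (M.natAbs * (K₁ * 2 ^ (d - 1)) : ℝ) * R (a * b * c) * (c : ℝ) ^ (d - 1) := by
      calc (R (a' * b' * c') : ℝ) ≤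
          ((M.natAbs * R (a * b * c) * (K₁ * 2 ^ (d - 1) * c ^ (d - 1)) : ℕ) : ℝ) := by
            exact_mod_cast h1
        _ = _ := by push_cast; ring
    refine h2.trans ?_
    apply mul_le_mul_of_nonneg_right _ (by positivity)
    apply mul_le_mul_of_nonneg_right _ (by positivity)
    exact le_max_right _ _

end Pool.Agent.L5helper92.TS
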