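import Mathlib
import Pool.Agent.L5helper92.TS.Push

/-!
# The truncated inequality for the images of the dihedral points under Belyi functions
-/

set_option autoImplicit false

namespace Pool.Agent.L5helper92.TS

open Finset Polynomial Filter
open Pool.Agent.N746.Self (R ABC Dihedral hom hom_eval max_ge gcd_dvd hom_add)

/-- the value of a form -/
theorem hom_aeval (d : ℕ) (r : ℤ[X]) (hr : r.natDegree ≤ d) (b c : ℕ) (hc : 0 < c) :
    ((hom d r b c : ℤ) : ℚ) = ((c : ℤ) : ℚ) ^ d * aeval (((b : ℤ) : ℚ) / ((c : ℤ) : ℚ)) r := by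
  have hcZ : (c : ℤ) ≠ 0 := by exact_mod_cast hc.ne'
  rw [hom_eval (F := ℚ) d r hr b c hcZ, show (Int.castRingHom ℚ) = algebraMap ℤ ℚ from rfl,
    eval_map_algebraMap]

section

variable (d : ℕ) (p q g : ℤ[X]) (hp : p.natDegree ≤ d)
    (hq : q.natDegree ≤ d) (hd : p.natDegree = d ∨ q.natDegree = d)
    (hcop : ∀ z : ℂ, aeval z p ≠ 0 ∨ aeval z q ≠ 0) (hg : g ≠ 0) (hgd : g.natDegree + 1 ≤ d)
    (h0 : p * q * (p + q) ≠ 0)
    (hz : ∀ z : ℂ, aeval z (p * q * (p + q)) = 0 → z = 0 ∨ z = 1 ∨ aeval z g = 0)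

include hd h0 in
theorem lead_ne : p.coeff d ≠ 0 ∨ q.coeff d ≠ 0 := by
  have hp0 : p ≠ 0 := fun h => h0 (by rw [h]; ring)
  have hq0 : q ≠ 0 := fun h => h0 (by rw [h]; ring)
  rcases hd with hd | hd
  · left
    rw [← hd]
    exact leadingCoeff_ne_zero.2 hp0
  · right
    rw [← hd]
    exact leadingCoeff_ne_zero.2 hq0

include hcop in
theorem coprime_map : IsCoprime (p.map (Int.castRingHom ℚ)) (q.map (Int.castRingHom ℚ)) := by
  refine (Polynomial.isCoprime_iff_aeval_ne_zero_of_isAlgClosed (k := ℚ) ℂ _ _).2 ?_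
  intro z
  have e : ∀ r : ℤ[X], aeval z (r.map (Int.castRingHom ℚ)) = aeval z r := fun r =>
    aeval_map_algebraMap ℚ z r
  rw [e, e]
  exact hcop _

include hp hq hd hcop hg hgd h0 hz in
/-- **The equivalence for the images.** -/
theorem img_iff (S : Finset ℕ) (E : Set ℚ) (T : ℕ → ℕ → ℕ → Prop)
    (hT : ABC T ↔ ABC fun _ _ _ => True)
    (hTE : ∀ a b c : ℕ, 0 < a → 0 < b → Nat.Coprime a b → a + b = c → T a b c →
      (b : ℚ) / (c : ℚ) ∈ E) :
    Truncated S (Img p q E) ↔ Truncated S Set.univ := by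
  obtain ⟨k, M, hM, hdvd⟩ := dvd_of_zeros (p * q * (p + q)) (X * (X - 1) * g) h0 (by
    intro z hz'
    have h1 := hz _ hz'
    rw [map_mul, map_mul, map_sub, aeval_X, map_one]
    rcases h1 with h1 | h1 | h1
    · rw [h1]; ring
    · rw [h1]; ring
    · rw [h1, mul_zero])
  have hpush := push d p q g k M hM hp hq (lead_ne d p q hd h0) (coprime_map p q hcop) hgd hg h0 hdvd
    T
  refine iff_of S _ (Push d p q T) ⟨fun h => hT.1 (hpush h), Pool.Agent.N746.Self.to_univ⟩ ?_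
  rintro a' b' c' ha' hb' hab' habc' ⟨a, b, c, m, ha, hb, hab, habc, hTabc, hm, hms⟩
  have hc : 0 < c := by omega
  have h1 := point_of_triple a' b' c' ha' hb' hab' habc' _ _ m hm hms
  set A := hom d p b c with hA
  set B := hom d q b c with hB
  have hAe : (A : ℚ) = ((c : ℤ) : ℚ) ^ d * aeval (((b : ℤ) : ℚ) / ((c : ℤ) : ℚ)) p :=
    hom_aeval d p hp b c hc
  have hBe : (B : ℚ) = ((c : ℤ) : ℚ) ^ d * aeval (((b : ℤ) : ℚ) / ((c : ℤ) : ℚ)) q :=
    hom_aeval d q hq b c hc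
  have hcq : ((c : ℤ) : ℚ) ^ d ≠ 0 := pow_ne_zero _ (by exact_mod_cast hc.ne')
  have hAB : (A : ℚ) + B ≠ 0 := by
    intro h
    apply h1.1
    rw [h, div_zero]
  refine ⟨(A : ℚ) / (A + B), ⟨((b : ℤ) : ℚ) / ((c : ℤ) : ℚ), ?_, ?_, ?_⟩, h1⟩
  · have := hTE a b c ha hb hab habc hTabc
    push_cast
    exact this
  · intro h
    apply hAB
    rw [hAe, hBe, ← mul_add, h, mul_zero]
  · rw [hAe, hBe, ← mul_add, mul_div_mul_left _ _ hcq]

include hp hq hd hcop hgd h0 in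
/-- **The number of the images of bounded height.** -/
theorem img_count (E : Set ℚ) (hE : ∀ t ∈ E, 0 < t) (F : ℝ → ℝ)
    (hF : ∀ X : ℝ, 1 ≤ X → {x : ℚ | x ∈ E ∧ max (x.num.natAbs : ℝ) x.den ≤ X}.Finite ∧
      ({x : ℚ | x ∈ E ∧ max (x.num.natAbs : ℝ) x.den ≤ X}.ncard : ℝ) ≤ F X) :
    ∃ K : ℝ, 1 ≤ K ∧ ∀ X : ℝ, 1 ≤ X →
      {x : ℚ | x ∈ Img p q E ∧ max (x.num.natAbs : ℝ) x.den ≤ X}.Finite ∧
      ({x : ℚ | x ∈ Img p q E ∧ max (x.num.natAbs : ℝ) x.den ≤ X}.ncard : ℝ) ≤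
        F ((K * X) ^ (1 / (d : ℝ))) := by
  have hd1 : 1 ≤ d := by omega
  obtain ⟨κ, hκ, hκ'⟩ := max_ge d p q hp hq (lead_ne d p q hd h0) (coprime_map p q hcop)
  obtain ⟨Δ, hΔ, hΔ'⟩ := gcd_dvd d p q hp hq (lead_ne d p q hd h0) (coprime_map p q hcop)
  have hΔ1 : (1 : ℝ) ≤ Δ.natAbs := by
    exact_mod_cast Int.natAbs_pos.2 hΔ
  set K : ℝ := max 1 (2 * Δ.natAbs / κ) with hK
  have hK1 : 1 ≤ K := le_max_left _ _
  refine ⟨K, hK1, fun X hX => ?_⟩
  have hKX : 1 ≤ K * X := one_le_mul_of_one_le_of_one_le hK1 hX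
  have hKX' : 1 ≤ (K * X) ^ (1 / (d : ℝ)) := Real.one_le_rpow hKX (by positivity)
  obtain ⟨hfin, hcard⟩ := hF _ hKX'
  have hsub : {x : ℚ | x ∈ Img p q E ∧ max (x.num.natAbs : ℝ) x.den ≤ X} ⊆
      (fun t : ℚ => aeval t p / (aeval t p + aeval t q)) ''
        {x : ℚ | x ∈ E ∧ max (x.num.natAbs : ℝ) x.den ≤ (K * X) ^ (1 / (d : ℝ))} := by
    rintro x ⟨⟨t, ht, hne, rfl⟩, hX'⟩
    refine ⟨t, ⟨ht, ?_⟩, rfl⟩
    have ht0 := hE t ht
    have hnum : 0 < t.num := Rat.num_pos.2 ht0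
    set b : ℕ := t.num.natAbs with hb
    set c : ℕ := t.den with hc
    have hb0 : 0 < b := by omega
    have hc0 : 0 < c := t.pos
    have hbc : Nat.Coprime b c := t.reduced
    have htbc : t = ((b : ℤ) : ℚ) / ((c : ℤ) : ℚ) := by
      have h1 : ((b : ℕ) : ℤ) = t.num := by omega
      rw [h1, hc]
      push_cast
      exact (Rat.num_div_den t).symm
    set A := hom d p b c with hA
    set B := hom d q b c with hB
    have hAe : (A : ℚ) = ((c : ℤ) : ℚ) ^ d * aeval t p := by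
      rw [htbc]; exact hom_aeval d p hp b c hc0
    have hBe : (B : ℚ) = ((c : ℤ) : ℚ) ^ d * aeval t q := by
      rw [htbc]; exact hom_aeval d q hq b c hc0
    have hcq : ((c : ℤ) : ℚ) ^ d ≠ 0 := pow_ne_zero _ (by exact_mod_cast hc0.ne')
    have hABq : (A : ℚ) + B ≠ 0 := by
      rw [hAe, hBe, ← mul_add]
      exact mul_ne_zero hcq hne
    have hAB : A + B ≠ 0 := by exact_mod_cast hABq
    set x : ℚ := aeval t p / (aeval t p + aeval t q) with hx
    have hxAB : x = (A : ℚ) / ((A : ℚ) + B) := by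
      rw [hx, hAe, hBe, ← mul_add, mul_div_mul_left _ _ hcq]
    -- the common factor
    have hcross : x.num * (A + B) = A * x.den := by
      have h1 : (x.num : ℚ) / x.den = (A : ℚ) / ((A : ℚ) + B) := by
        rw [Rat.num_div_den]; exact hxAB
      have hxd : (x.den : ℚ) ≠ 0 := by exact_mod_cast x.pos.ne'
      rw [div_eq_div_iff hxd hABq] at h1
      exact_mod_cast h1
    have hxcop : IsCoprime (x.den : ℤ) x.num := by
      have := x.reduced
      exact (Int.isCoprime_iff_gcd_eq_one.2 (by simpa [Int.gcd] using this)).symm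
    obtain ⟨m, hm⟩ : (x.den : ℤ) ∣ A + B := by
      refine hxcop.dvd_of_dvd_mul_left ?_
      rw [hcross]
      exact dvd_mul_left _ _
    have hxd : (x.den : ℤ) ≠ 0 := by exact_mod_cast x.pos.ne'
    have hAm : A = x.num * m := by
      have h2 : A * x.den = (x.num * m) * x.den := by
        rw [← hcross, hm]; ring
      exact mul_right_cancel₀ hxd h2
    have hmΔ : m ∣ Δ := by
      apply hΔ' b c hb0 hc0 hbc m
      · rw [← hA, hAm]; exact dvd_mul_left _ _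
      · rw [← hB]
        have h2 : m ∣ A + B := by rw [hm]; exact dvd_mul_left _ _
        have h3 : m ∣ A := by rw [hAm]; exact dvd_mul_left _ _
        exact (dvd_add_right h3).1 h2
    have hmle : (m.natAbs : ℝ) ≤ Δ.natAbs := by
      exact_mod_cast Int.natAbs_le_of_dvd_ne_zero hmΔ hΔ
    -- heights
    have habsA : |(A : ℝ)| ≤ X * Δ.natAbs := by
      have e1 : |(A : ℝ)| = (x.num.natAbs : ℝ) * (m.natAbs : ℝ) := by
        rw [hAm]
        push_cast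
        rw [abs_mul, Nat.cast_natAbs, Nat.cast_natAbs, Int.cast_abs, Int.cast_abs]
      rw [e1]
      exact mul_le_mul ((le_max_left _ _).trans hX') hmle (Nat.cast_nonneg _) (by linarith)
    have habsAB : |((A + B : ℤ) : ℝ)| ≤ X * Δ.natAbs := by
      have e1 : |((A + B : ℤ) : ℝ)| = (x.den : ℝ) * (m.natAbs : ℝ) := by
        rw [hm]
        push_cast
        rw [abs_mul, Nat.cast_natAbs, Int.cast_abs, Nat.abs_cast]
      rw [e1]
      exact mul_le_mul ((le_max_right _ _).trans hX') hmle (Nat.cast_nonneg _) (by linarith)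
    have habsB : |(B : ℝ)| ≤ 2 * (X * Δ.natAbs) := by
      have e1 : (B : ℝ) = ((A + B : ℤ) : ℝ) - (A : ℝ) := by push_cast; ring
      rw [e1]
      calc |((A + B : ℤ) : ℝ) - (A : ℝ)| ≤ |((A + B : ℤ) : ℝ)| + |(A : ℝ)| := abs_sub _ _
        _ ≤ _ := by linarith
    have hmax : max |(A : ℝ)| |(B : ℝ)| ≤ 2 * (X * Δ.natAbs) := by
      apply max_le _ habsB
      have : 0 ≤ X * Δ.natAbs := by positivity
      linarith
    have h3 := (hκ' b c hb0 hc0).trans hmax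
    have h4 : ((b + c : ℕ) : ℝ) ^ d ≤ K * X := by
      have h5 : ((b + c : ℕ) : ℝ) ^ d ≤ 2 * Δ.natAbs / κ * X := by
        rw [div_mul_eq_mul_div, le_div_iff₀ hκ]
        linarith
      exact h5.trans (mul_le_mul_of_nonneg_right (le_max_right _ _) (by linarith))
    have h5 : ((b + c : ℕ) : ℝ) ≤ (K * X) ^ (1 / (d : ℝ)) := by
      have hd0 : (d : ℝ) ≠ 0 := by exact_mod_cast (by omega : d ≠ 0)
      calc ((b + c : ℕ) : ℝ) = (((b + c : ℕ) : ℝ) ^ (d : ℝ)) ^ (1 / (d : ℝ)) := by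
            rw [← Real.rpow_mul (Nat.cast_nonneg _), mul_one_div_cancel hd0, Real.rpow_one]
        _ ≤ _ := by
            apply Real.rpow_le_rpow (by positivity) _ (by positivity)
            rw [Real.rpow_natCast]
            exact h4
    push_cast at h5
    have hbn : (0 : ℝ) ≤ b := Nat.cast_nonneg _
    have hcn : (0 : ℝ) ≤ c := Nat.cast_nonneg _
    exact max_le (by linarith) (by linarith)
  have hfin' := hfin.image (fun t : ℚ => (aeval t p / (aeval t p + aeval t q) : ℚ))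
  refine ⟨hfin'.subset hsub, le_trans ?_ hcard⟩
  exact_mod_cast (Set.ncard_le_ncard hsub hfin').trans (Set.ncard_image_le hfin)

end

/-- the point of a dihedral triple -/
theorem mem_dih {n N : ℕ} {δ : ℝ} {Y : ℕ → ℝ} (a b c : ℕ) (ha : 0 < a) (hb : 0 < b)
    (hab : Nat.Coprime a b) (habc : a + b = c) (h : Dihedral n N δ Y a b c) :
    (b : ℚ) / (c : ℚ) ∈ Dih n N δ Y := by
  obtain ⟨x, y, P, Q, h1, h2, h3, h4, h5, h6, h7, h8⟩ := h
  subst h3 h4 h5
  have hQ : 1 ≤ Q := by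
    rcases Nat.eq_zero_or_pos Q with h | h
    · rw [h] at hb; simp at hb
    · exact h
  have hPQ2 : Q ^ 2 < P ^ 2 := by omega
  have hPQ : Q < P := lt_of_pow_lt_pow_left₀ 2 (Nat.zero_le _) hPQ2
  have hcop : Nat.Coprime (P ^ 2) (Q ^ 2) := by
    rw [← habc]
    exact Nat.coprime_add_self_left.2 hab
  have hcop' : Nat.Coprime P Q := by
    rwa [Nat.coprime_pow_left_iff (by norm_num), Nat.coprime_pow_right_iff (by norm_num)] at hcop
  refine ⟨P, Q, x, y, hQ, hPQ, hcop', h1, by omega, h6, h7, ?_, ?_⟩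
  · obtain ⟨i, hi1, hi2⟩ := h8
    refine ⟨i, ?_, ?_⟩
    · exact_mod_cast hi1
    · exact_mod_cast hi2
  · rw [div_pow]
    push_cast
    rfl

theorem dih_pos {n N : ℕ} {δ : ℝ} {Y : ℕ → ℝ} (t : ℚ) (h : t ∈ Dih n N δ Y) : 0 < t := by
  obtain ⟨P, Q, u, v, hQ, hPQ, -, -, -, -, -, -, rfl⟩ := h
  have h1 : (0 : ℚ) < Q := by exact_mod_cast (by omega : 0 < Q)
  have h2 : (0 : ℚ) < P := by exact_mod_cast (by omega : 0 < P)
  positivity

/-- **The main theorem.** -/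
theorem main (S : Finset ℕ) (n N r : ℕ) (hn : 1 ≤ n) (hN : 1 ≤ N) (δ : ℝ) (hδ : 0 < δ)
    (Y : ℕ → ℝ) (hY : ∀ i, 1 < Y i) (hYt : Tendsto Y atTop atTop)
    (hYr : ∀ i, Y (i + 1) ≤ (Y i) ^ r)
    (d : ℕ) (p q g : ℤ[X]) (hp : p.natDegree ≤ d)
    (hq : q.natDegree ≤ d) (hd : p.natDegree = d ∨ q.natDegree = d)
    (hcop : ∀ z : ℂ, aeval z p ≠ 0 ∨ aeval z q ≠ 0) (hg : g ≠ 0) (hgd : g.natDegree + 1 ≤ d)
    (h0 : p * q * (p + q) ≠ 0)
    (hz : ∀ z : ℂ, aeval z (p * q * (p + q)) = 0 → z = 0 ∨ z = 1 ∨ aeval z g = 0) :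
    (Truncated S (Img p q (Dih n N δ Y)) ↔ Truncated S Set.univ) ∧
    ∃ C : ℝ, ∀ X : ℝ, 1 ≤ X →
      {x : ℚ | x ∈ Img p q (Dih n N δ Y) ∧ max (x.num.natAbs : ℝ) x.den ≤ X}.Finite ∧
      ({x : ℚ | x ∈ Img p q (Dih n N δ Y) ∧ max (x.num.natAbs : ℝ) x.den ≤ X}.ncard : ℝ) ≤
        C * X ^ (1 / (d * n : ℝ)) := by
  refine ⟨img_iff d p q g hp hq hd hcop hg hgd h0 hz S _ (Dihedral n N δ Y)
    (Pool.Agent.N746.Self.family n N r hn hN δ hδ Y hY hYt hYr)
    (fun a b c ha hb hab habc h => mem_dih a b c ha hb hab habc h), ?_⟩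
  obtain ⟨K, hK, hK'⟩ := img_count d p q g hp hq hd hcop hgd h0 (Dih n N δ Y)
    (fun t ht => dih_pos t ht) (fun X => (4 * X) ^ (1 / (n : ℝ)))
    (fun X hX => dih_count n N hn δ Y X hX)
  refine ⟨(4 * K ^ (1 / (d : ℝ))) ^ (1 / (n : ℝ)), fun X hX => ⟨(hK' X hX).1, ?_⟩⟩
  refine (hK' X hX).2.trans (le_of_eq ?_)
  have hX0 : 0 ≤ X := by linarith
  have hK0 : 0 ≤ K := by linarith
  have hd0 : (d : ℝ) ≠ 0 := by exact_mod_cast (by omega : d ≠ 0)
  have hn0 : (n : ℝ) ≠ 0 := by exact_mod_cast (by omega : n ≠ 0)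
  show (4 * (K * X) ^ (1 / (d : ℝ))) ^ (1 / (n : ℝ)) = _
  rw [Real.mul_rpow hK0 hX0, ← mul_assoc, Real.mul_rpow (by positivity) (by positivity),
    ← Real.rpow_mul hX0]
  congr 2
  field_simp

end Pool.Agent.L5helper92.TS
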